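import Mathlib

/-!
Definitions for problem MP_b8847a_al (Specht property of nonmatrix admissible varieties).
All algebras are nonassociative algebras over a field `F`, with no identity element required.
-/

namespace Pool.Agent.P.MP_b8847a_al

universe u

/-- A (not necessarily associative, not necessarily unital) algebra over `F`. -/
structure Alg (F : Type u) [Field F] : Type (u + 1) where
  carrier : Type u
  [ring : NonUnitalNonAssocRing carrier]
  [module : Module F carrier]
  [tower : IsScalarTower F carrier carrier]
  [comm : SMulCommClass F carrier carrier]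

attribute [instance] Alg.ring Alg.module Alg.tower Alg.comm

variable {F : Type u} [Field F]

/-- The algebra `A` satisfies the identity `f = 0`, where `f` is a nonassociative polynomial
(an element of the free nonassociative algebra on countably many variables). -/
def Satisfies (A : Alg F) (f : FreeNonUnitalNonAssocAlgebra F ℕ) : Prop :=
  ∀ φ : ℕ → A.carrier, FreeNonUnitalNonAssocAlgebra.lift F φ f = 0

/-- The class of all algebras satisfying every identity of the set `S`. -/
def Var (S : Set (FreeNonUnitalNonAssocAlgebra F ℕ)) : Set (Alg F) :=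
  {A | ∀ f ∈ S, Satisfies A f}

/-- A variety is a class of algebras defined by a set of polynomial identities. -/
def IsVariety (V : Set (Alg F)) : Prop := ∃ S, V = Var S

/-- A class of algebras is finitely based if it is defined by finitely many identities. -/
def FinitelyBased (V : Set (Alg F)) : Prop := ∃ S, S.Finite ∧ V = Var S

/-- Every subvariety of `V`, including `V` itself, is defined by finitely many identities. -/
def Spechtian (V : Set (Alg F)) : Prop := ∀ W, IsVariety W → W ⊆ V → FinitelyBased W

/-- Noncommutative Jordan algebra: `(x, y, x) = 0` and `(x ^ 2, y, x) = 0`. -/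
def IsNCJordan (A : Alg F) : Prop :=
  ∀ x y : A.carrier, (x * y) * x = x * (y * x) ∧ ((x * x) * y) * x = (x * x) * (y * x)

/-- Anticommutative algebra. -/
def IsAnticomm (A : Alg F) : Prop := ∀ x y : A.carrier, x * y = -(y * x)

/-- For some `n`, every product of at least `n` elements of `T`, in any bracketing, is zero. -/
def NilpotentOn (A : Alg F) (T : Set A.carrier) : Prop :=
  ∃ n : ℕ, ∀ w : FreeMagma ℕ, n ≤ w.length →
    ∀ φ : ℕ → A.carrier, (∀ i, φ i ∈ T) → FreeMagma.lift φ w = 0

/-- Nilpotent algebra. -/
def IsNilpotentAlg (A : Alg F) : Prop := NilpotentOn A Set.univ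

/-- Locally nilpotent algebra: every finitely generated subalgebra is nilpotent. -/
def IsLocNilpotentAlg (A : Alg F) : Prop :=
  ∀ s : Set A.carrier, s.Finite → NilpotentOn A (NonUnitalAlgebra.adjoin F s)

/-- Every anticommutative algebra of `V` is nilpotent. -/
def Admissible (V : Set (Alg F)) : Prop := ∀ A ∈ V, IsAnticomm A → IsNilpotentAlg A

/-- Every anticommutative algebra of `V` is locally nilpotent. -/
def LocallyAdmissible (V : Set (Alg F)) : Prop := ∀ A ∈ V, IsAnticomm A → IsLocNilpotentAlg A

/-- Simple algebra: nonzero multiplication, and no two-sided ideal other than `0` and `A`. -/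
def IsSimpleAlg (A : Alg F) : Prop :=
  (∃ x y : A.carrier, x * y ≠ 0) ∧
    ∀ I : Submodule F A.carrier, (∀ x ∈ I, ∀ y, x * y ∈ I ∧ y * x ∈ I) → I = ⊥ ∨ I = ⊤

/-- The algebra is a field: commutative, associative, with an identity `e ≠ 0` and inverses of
nonzero elements. -/
def IsFieldAlg (A : Alg F) : Prop :=
  (∀ x y : A.carrier, x * y = y * x) ∧ (∀ x y z : A.carrier, (x * y) * z = x * (y * z)) ∧
    ∃ e : A.carrier, e ≠ 0 ∧ (∀ x, e * x = x) ∧ ∀ x, x ≠ 0 → ∃ y, x * y = e

/-- Every simple algebra of `V` is a field. -/
def Nonmatrix (V : Set (Alg F)) : Prop := ∀ A ∈ V, IsSimpleAlg A → IsFieldAlg A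

/-- The algebra `F 1 + A` obtained by adjoining an external identity element (Mathlib's
`Unitization`). -/
def Alg.adjoinOne (A : Alg F) : Alg F where
  carrier := Unitization F A.carrier
  tower := ⟨fun a x y => by
    ext <;> simp [smul_smul, mul_comm, mul_left_comm, smul_add, smul_mul_assoc]⟩
  comm := ⟨fun a x y => by
    ext <;> simp [smul_smul, mul_comm, mul_left_comm, smul_add, mul_smul_comm]⟩

end Pool.Agent.P.MP_b8847a_al
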