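import Pool.Agent.P.MP_b8847a_al.Defs

/-! The finitely based variety `V0` and its properties. -/

namespace Pool.Agent.P.MP_b8847a_al

universe u

section basic

variable {A : Type*} [NonUnitalNonAssocRing A]

/-- commutator -/
def com (x y : A) : A := x * y - y * x

/-- associator -/
def asc (x y z : A) : A := (x * y) * z - x * (y * z)

/-- generic element of the ideal generated by commutators and associators -/
def gen (ψ : ℕ → A) : A :=
  com (ψ 0) (ψ 1) + asc (ψ 2) (ψ 3) (ψ 4) + com (ψ 5) (ψ 6) * ψ 7 +
    asc (ψ 8) (ψ 9) (ψ 10) * ψ 11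

/-- the right-normed word `[ψ 3, ψ 4] ψ 5 ⋯ ψ (k + 4)` -/
def qw (ψ : ℕ → A) : ℕ → A
  | 0 => com (ψ 3) (ψ 4)
  | k + 1 => qw ψ k * ψ (k + 5)

/-- the word `([ψ 0, ψ 1] ψ 2) ([ψ 3, ψ 4] ψ 5 ⋯ ψ (k + 4))` -/
def mw (ψ : ℕ → A) (k : ℕ) : A := (com (ψ 0) (ψ 1) * ψ 2) * qw ψ k

variable {F : Type*} [Field F] {B : Type*} [NonUnitalNonAssocRing B] [Module F A] [Module F B]

theorem map_com (h : A →ₙₐ[F] B) (x y : A) : h (com x y) = com (h x) (h y) := by
  simp [com]

theorem map_asc (h : A →ₙₐ[F] B) (x y z : A) : h (asc x y z) = asc (h x) (h y) (h z) := by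
  simp [asc]

theorem map_gen (h : A →ₙₐ[F] B) (ψ : ℕ → A) : h (gen ψ) = gen (fun i => h (ψ i)) := by
  simp [gen, map_com, map_asc]

theorem map_qw (h : A →ₙₐ[F] B) (ψ : ℕ → A) (k : ℕ) : h (qw ψ k) = qw (fun i => h (ψ i)) k := by
  induction k with
  | zero => simp [qw, map_com]
  | succ k ih => simp [qw, ih]

theorem map_mw (h : A →ₙₐ[F] B) (ψ : ℕ → A) (k : ℕ) : h (mw ψ k) = mw (fun i => h (ψ i)) k := by
  simp [mw, map_com, map_qw]

/-- span of the generic elements -/
def idl (F A : Type*) [Field F] [NonUnitalNonAssocRing A] [Module F A] : Submodule F A :=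
  Submodule.span F (Set.range (gen : (ℕ → A) → A))

theorem gen_mem (ψ : ℕ → A) : gen ψ ∈ idl F A := Submodule.subset_span ⟨ψ, rfl⟩

theorem com_mem (x y : A) : com x y ∈ idl F A := by
  have := gen_mem (F := F) (fun i => if i = 0 then x else if i = 1 then y else 0)
  simpa [gen, com, asc] using this

theorem asc_mem (x y z : A) : asc x y z ∈ idl F A := by
  have := gen_mem (F := F)
    (fun i => if i = 2 then x else if i = 3 then y else if i = 4 then z else 0)
  simpa [gen, com, asc] using this

theorem com_mul_mem (x y z : A) : com x y * z ∈ idl F A := by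
  have := gen_mem (F := F)
    (fun i => if i = 5 then x else if i = 6 then y else if i = 7 then z else 0)
  simpa [gen, com, asc] using this

theorem asc_mul_mem (x y z w : A) : asc x y z * w ∈ idl F A := by
  have := gen_mem (F := F)
    (fun i => if i = 8 then x else if i = 9 then y else if i = 10 then z else
      if i = 11 then w else 0)
  simpa [gen, com, asc] using this

theorem gen_mul_mem (ψ : ℕ → A) (a : A) : gen ψ * a ∈ idl F A := by
  have h1 : ∀ k z : A, (k * z) * a = asc k z a + k * (z * a) := by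
    intro k z; simp [asc]
  rw [gen, add_mul, add_mul, add_mul, h1, h1]
  refine add_mem (add_mem (add_mem (com_mul_mem _ _ _) (asc_mul_mem _ _ _ _))
    (add_mem (asc_mem _ _ _) (com_mul_mem _ _ _))) (add_mem (asc_mem _ _ _) (asc_mul_mem _ _ _ _))

variable [IsScalarTower F A A] [SMulCommClass F A A]

theorem idl_mul_mem {t : A} (ht : t ∈ idl F A) (a : A) : t * a ∈ idl F A := by
  induction ht using Submodule.span_induction with
  | mem x hx => obtain ⟨ψ, rfl⟩ := hx; exact gen_mul_mem ψ a
  | zero => simp
  | add x y _ _ hx hy => rw [add_mul]; exact add_mem hx hy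
  | smul c x _ hx => rw [smul_mul_assoc]; exact Submodule.smul_mem _ _ hx

theorem mul_idl_mem {t : A} (ht : t ∈ idl F A) (a : A) : a * t ∈ idl F A := by
  have : a * t = t * a - com t a := by simp [com]
  rw [this]
  exact sub_mem (idl_mul_mem ht a) (com_mem _ _)

theorem idl_cube (h : ∀ ψ₁ ψ₂ ψ₃ : ℕ → A, (gen ψ₁ * gen ψ₂) * gen ψ₃ = 0)
    {a b c : A} (ha : a ∈ idl F A) (hb : b ∈ idl F A) (hc : c ∈ idl F A) : (a * b) * c = 0 := by
  induction ha using Submodule.span_induction with
  | mem x hx =>
    obtain ⟨ψ₁, rfl⟩ := hx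
    induction hb using Submodule.span_induction with
    | mem y hy =>
      obtain ⟨ψ₂, rfl⟩ := hy
      induction hc using Submodule.span_induction with
      | mem z hz => obtain ⟨ψ₃, rfl⟩ := hz; exact h _ _ _
      | zero => simp
      | add x y _ _ hx hy => rw [mul_add, hx, hy, add_zero]
      | smul c x _ hx => rw [mul_smul_comm, hx, smul_zero]
    | zero => simp
    | add x y _ _ hx hy => rw [mul_add, add_mul, hx, hy, add_zero]
    | smul c x _ hx => rw [mul_smul_comm, smul_mul_assoc, hx, smul_zero]
  | zero => simp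
  | add x y _ _ hx hy => rw [add_mul, add_mul, hx, hy, add_zero]
  | smul c x _ hx => rw [smul_mul_assoc, smul_mul_assoc, hx, smul_zero]

end basic

variable {F : Type u} [Field F]

variable (F) in
/-- the free generators -/
noncomputable abbrev X (i : ℕ) : FreeNonUnitalNonAssocAlgebra F ℕ :=
  FreeNonUnitalNonAssocAlgebra.of F i

variable (F) in
/-- The four identities defining `V0`. -/
noncomputable def S0 : Set (FreeNonUnitalNonAssocAlgebra F ℕ) :=
  {asc (X F 0) (X F 1) (X F 0), asc (X F 0 * X F 0) (X F 1) (X F 0),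
    com (com (X F 0) (X F 1)) (X F 2),
    (gen (fun i => X F (3 * i)) * gen (fun i => X F (3 * i + 1))) * gen (fun i => X F (3 * i + 2))}

theorem S0_finite : (S0 F).Finite := by
  unfold S0
  exact Set.toFinite _

/-- The four identities, written out in an algebra. -/
structure Good (A : Type*) [NonUnitalNonAssocRing A] : Prop where
  flex : ∀ x y : A, asc x y x = 0
  jord : ∀ x y : A, asc (x * x) y x = 0
  lie : ∀ x y z : A, com (com x y) z = 0
  cube : ∀ ψ₁ ψ₂ ψ₃ : ℕ → A, (gen ψ₁ * gen ψ₂) * gen ψ₃ = 0

theorem mem_V0_iff (A : Alg F) : A ∈ Var (S0 F) ↔ Good A.carrier := by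
  constructor
  · intro h
    refine ⟨fun x y => ?_, fun x y => ?_, fun x y z => ?_, fun ψ₁ ψ₂ ψ₃ => ?_⟩
    · have := h _ (Or.inl rfl) (fun i => if i = 0 then x else y)
      simpa [map_asc] using this
    · have := h _ (Or.inr (Or.inl rfl)) (fun i => if i = 0 then x else y)
      simpa [map_asc] using this
    · have := h _ (Or.inr (Or.inr (Or.inl rfl)))
        (fun i => if i = 0 then x else if i = 1 then y else z)
      simpa [map_com] using this
    · have := h _ (Or.inr (Or.inr (Or.inr rfl)))
        (fun n => if n % 3 = 0 then ψ₁ (n / 3) else if n % 3 = 1 then ψ₂ (n / 3) else ψ₃ (n / 3))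
      simp only [map_mul, map_gen, FreeNonUnitalNonAssocAlgebra.lift_of_apply] at this
      convert this using 3
      · congr 1; funext i
        have h1 : (3 * i) % 3 = 0 := by omega
        have h2 : (3 * i) / 3 = i := by omega
        simp [h1, h2]
      · congr 1; funext i
        have h1 : (3 * i + 1) % 3 = 1 := by omega
        have h2 : (3 * i + 1) / 3 = i := by omega
        simp [h1, h2]
      · funext i
        have h1 : (3 * i + 2) % 3 = 2 := by omega
        have h2 : (3 * i + 2) / 3 = i := by omega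
        simp [h1, h2]
  · intro h f hf φ
    rcases hf with rfl | rfl | rfl | rfl
    · simp [map_asc, h.flex]
    · simp [map_asc, h.jord]
    · simp [map_com, h.lie]
    · simp only [map_mul, map_gen, h.cube]

theorem V0_ncJordan {A : Alg F} (h : A ∈ Var (S0 F)) : IsNCJordan A := by
  rw [mem_V0_iff] at h
  intro x y
  exact ⟨sub_eq_zero.mp (h.flex x y), sub_eq_zero.mp (h.jord x y)⟩

theorem V0_admissible [CharZero F] : Admissible (Var (S0 F)) := by
  intro A hA hac
  rw [mem_V0_iff] at hA
  have h2 : ∀ x y : A.carrier, com x y = (2 : F) • (x * y) := by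
    intro x y
    rw [com, hac y x, two_smul]; simp
  have h3 : ∀ x y z : A.carrier, (x * y) * z = 0 := by
    intro x y z
    have := hA.lie x y z
    rw [h2, h2, smul_mul_assoc, smul_smul] at this
    have h4 : (2 * 2 : F) ≠ 0 := by norm_num
    exact (smul_eq_zero.mp this).resolve_left h4
  have h3' : ∀ x y z : A.carrier, z * (x * y) = 0 := by
    intro x y z
    rw [hac, h3, neg_zero]
  refine ⟨3, fun w hw φ _ => ?_⟩
  match w, hw with
  | .of _, hw => simp [FreeMagma.length] at hw
  | .mul (.of _) (.of _), hw => simp [FreeMagma.length] at hw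
  | .mul a (.mul b c), _ =>
    change FreeMagma.lift φ (a * (b * c)) = 0
    rw [map_mul, map_mul, h3']
  | .mul (.mul a b) c, _ =>
    change FreeMagma.lift φ ((a * b) * c) = 0
    rw [map_mul, map_mul, h3]

theorem locAdm_of_adm {V : Set (Alg F)} (h : Admissible V) : LocallyAdmissible V := by
  intro A hA hac s _
  obtain ⟨n, hn⟩ := h A hA hac
  exact ⟨n, fun w hw φ _ => hn w hw φ (fun _ => Set.mem_univ _)⟩

theorem V0_nonmatrix : Nonmatrix (Var (S0 F)) := by
  intro A hA ⟨⟨x₀, y₀, hxy⟩, hs⟩
  rw [mem_V0_iff] at hA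
  rcases hs (idl F A.carrier) (fun x hx y => ⟨idl_mul_mem hx y, mul_idl_mem hx y⟩) with hI | hI
  · have hc : ∀ x y : A.carrier, x * y = y * x := by
      intro x y
      have := com_mem (F := F) x y
      rw [hI, Submodule.mem_bot] at this
      exact sub_eq_zero.mp this
    have ha : ∀ x y z : A.carrier, (x * y) * z = x * (y * z) := by
      intro x y z
      have := asc_mem (F := F) x y z
      rw [hI, Submodule.mem_bot] at this
      exact sub_eq_zero.mp this
    -- the annihilator is zero
    let Ann : Submodule F A.carrier :=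
      { carrier := {a | ∀ y, a * y = 0}
        add_mem' := fun {a b} h1 h2 y => by rw [add_mul, h1 y, h2 y, add_zero]
        zero_mem' := fun y => zero_mul y
        smul_mem' := fun c a h1 y => by rw [smul_mul_assoc, h1 y, smul_zero] }
    have hAnn : Ann = ⊥ := by
      refine (hs Ann (fun x hx y => ⟨fun z => ?_, fun z => ?_⟩)).resolve_right ?_
      · rw [hx y, zero_mul]
      · rw [hc y x, hx y, zero_mul]
      · intro h
        have : x₀ ∈ Ann := h ▸ Submodule.mem_top
        exact hxy (this y₀)
    have hsurj : ∀ a : A.carrier, a ≠ 0 → ∀ b, ∃ c, a * c = b := by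
      intro a ha0 b
      let R : Submodule F A.carrier :=
        { carrier := {t | ∃ c, a * c = t}
          add_mem' := fun {s t} ⟨c, h1⟩ ⟨d, h2⟩ => ⟨c + d, by rw [mul_add, h1, h2]⟩
          zero_mem' := ⟨0, mul_zero a⟩
          smul_mem' := fun r t ⟨c, h1⟩ => ⟨r • c, by rw [mul_smul_comm, h1]⟩ }
      have hR : R = ⊤ := by
        refine (hs R (fun x ⟨c, hx⟩ y => ⟨⟨c * y, ?_⟩, ⟨c * y, ?_⟩⟩)).resolve_left ?_
        · rw [← ha, hx]
        · rw [← ha, hx, hc]
        · intro h
          apply ha0
          have : a ∈ Ann := fun y => by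
            have : a * y ∈ R := ⟨y, rfl⟩
            rwa [h, Submodule.mem_bot] at this
          rwa [hAnn, Submodule.mem_bot] at this
      have : b ∈ R := hR ▸ Submodule.mem_top
      exact this
    have hx0 : x₀ ≠ 0 := by rintro rfl; exact hxy (zero_mul _)
    obtain ⟨e, he⟩ := hsurj x₀ hx0 x₀
    have he1 : ∀ b, e * b = b := by
      intro b
      obtain ⟨c, rfl⟩ := hsurj x₀ hx0 b
      rw [← ha, hc e, he]
    refine ⟨hc, ha, e, ?_, he1, fun x hx => hsurj x hx e⟩
    rintro rfl
    exact hx0 (by rw [← he1 x₀, zero_mul])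
  · exfalso
    have h3 : ∀ a b c : A.carrier, (a * b) * c = 0 := fun a b c =>
      idl_cube (F := F) hA.cube (hI ▸ Submodule.mem_top) (hI ▸ Submodule.mem_top)
        (hI ▸ Submodule.mem_top)
    let P : Submodule F A.carrier := Submodule.span F {t | ∃ a b, a * b = t}
    have hP : P = ⊤ := by
      refine (hs P (fun x _ y => ⟨Submodule.subset_span ⟨_, _, rfl⟩,
        Submodule.subset_span ⟨_, _, rfl⟩⟩)).resolve_left ?_
      intro h
      have : x₀ * y₀ ∈ P := Submodule.subset_span ⟨_, _, rfl⟩
      rw [h, Submodule.mem_bot] at this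
      exact hxy this
    have hx : x₀ ∈ P := hP ▸ Submodule.mem_top
    apply hxy
    clear hxy
    induction hx using Submodule.span_induction with
    | mem x hx => obtain ⟨a, b, rfl⟩ := hx; exact h3 _ _ _
    | zero => simp
    | add x y _ _ hx hy => rw [add_mul, hx, hy, add_zero]
    | smul c x _ hx => rw [smul_mul_assoc, hx, smul_zero]

section unitization

variable {A : Type u} [NonUnitalNonAssocRing A] [Module F A] [IsScalarTower F A A]
  [SMulCommClass F A A]

theorem fst_sub' (x y : Unitization F A) : (x - y).fst = x.fst - y.fst := rfl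

theorem snd_sub' (x y : Unitization F A) : (x - y).snd = x.snd - y.snd := rfl

theorem com_unit (x y : Unitization F A) : com x y = ((com x.snd y.snd : A) : Unitization F A) := by
  ext
  · simp [com, mul_comm, fst_sub']
  · simp only [com, snd_sub', Unitization.snd_mul, Unitization.snd_inr]; abel

theorem asc_unit (x y z : Unitization F A) :
    asc x y z = ((asc x.snd y.snd z.snd : A) : Unitization F A) := by
  ext
  · simp [asc, mul_assoc, fst_sub']
  · simp only [asc, snd_sub', Unitization.snd_mul, Unitization.fst_mul,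
      Unitization.snd_inr, add_mul, mul_add, smul_add, smul_mul_assoc, mul_smul_comm, smul_smul,
      mul_comm]
    abel

theorem inr_mul_unit (k : A) (z : Unitization F A) :
    (k : Unitization F A) * z = ((z.fst • k + k * z.snd : A) : Unitization F A) := by
  ext <;> simp

theorem gen_unit (ψ : ℕ → Unitization F A) : ∃ t ∈ idl F A, gen ψ = (t : Unitization F A) := by
  refine ⟨_, ?_, by
    rw [gen, com_unit, com_unit, asc_unit, asc_unit, inr_mul_unit, inr_mul_unit,
      ← Unitization.inr_add, ← Unitization.inr_add, ← Unitization.inr_add]⟩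
  refine add_mem (add_mem (add_mem (com_mem _ _) (asc_mem _ _ _)) (add_mem ?_ (com_mul_mem _ _ _)))
    (add_mem ?_ (asc_mul_mem _ _ _ _))
  · exact Submodule.smul_mem _ _ (com_mem _ _)
  · exact Submodule.smul_mem _ _ (asc_mem _ _ _)

theorem good_unit (h : Good A) : Good (Unitization F A) := by
  refine ⟨fun x y => ?_, fun x y => ?_, fun x y z => ?_, fun ψ₁ ψ₂ ψ₃ => ?_⟩
  · rw [asc_unit, h.flex]; simp
  · rw [asc_unit]
    have h1 := h.flex x.snd y.snd
    have h2 := h.jord x.snd y.snd
    have : asc (x * x).snd y.snd x.snd = x.fst • asc x.snd y.snd x.snd +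
        x.fst • asc x.snd y.snd x.snd + asc (x.snd * x.snd) y.snd x.snd := by
      simp only [asc, Unitization.snd_mul, add_mul, smul_mul_assoc, smul_sub]
      abel
    rw [this, h1, h2]; simp
  · rw [com_unit, com_unit x y]
    simp [h.lie]
  · obtain ⟨a, ha, e1⟩ := gen_unit ψ₁
    obtain ⟨b, hb, e2⟩ := gen_unit ψ₂
    obtain ⟨c, hc, e3⟩ := gen_unit ψ₃
    rw [e1, e2, e3, ← Unitization.inr_mul, ← Unitization.inr_mul, idl_cube h.cube ha hb hc]
    simp

end unitization

theorem V0_adjoinOne {A : Alg F} (h : A ∈ Var (S0 F)) : A.adjoinOne ∈ Var (S0 F) := by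
  rw [mem_V0_iff] at h ⊢
  exact good_unit h

end Pool.Agent.P.MP_b8847a_al
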