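import Pool.Agent.P.MP_b8847a_al.Model

/-! The subvariety `W0` of `V0` is not finitely based. -/

namespace Pool.Agent.P.MP_b8847a_al

universe u

variable {F : Type u} [Field F]

variable (F) in
/-- The identities defining the subvariety `W0`. -/
noncomputable def S1 : Set (FreeNonUnitalNonAssocAlgebra F ℕ) :=
  S0 F ∪ Set.range (fun k => mw (X F) k)

theorem mem_W0_iff (A : Alg F) :
    A ∈ Var (S1 F) ↔ Good A.carrier ∧ ∀ (ψ : ℕ → A.carrier) (k : ℕ), mw ψ k = 0 := by
  rw [← mem_V0_iff]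
  constructor
  · intro h
    refine ⟨fun f hf => h f (Or.inl hf), fun ψ k => ?_⟩
    have := h _ (Or.inr ⟨k, rfl⟩) ψ
    simpa [map_mw] using this
  · rintro ⟨h1, h2⟩ f (hf | ⟨k, rfl⟩)
    · exact h1 f hf
    · intro φ
      simp [map_mw, h2]

theorem good_of_inj {A B : Type*} [NonUnitalNonAssocRing A] [NonUnitalNonAssocRing B]
    [Module F A] [Module F B] (h : A →ₙₐ[F] B) (hi : Function.Injective h) (hB : Good B) :
    Good A := by
  refine ⟨fun x y => hi ?_, fun x y => hi ?_, fun x y z => hi ?_, fun ψ₁ ψ₂ ψ₃ => hi ?_⟩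
  · rw [map_asc, hB.flex, map_zero]
  · rw [map_asc, map_mul, hB.jord, map_zero]
  · rw [map_com, map_com, hB.lie, map_zero]
  · rw [map_mul, map_mul, map_gen, map_gen, map_gen, hB.cube, map_zero]

variable (F) in
/-- substitution of `0` for all variables from the `d`-th on -/
noncomputable def trunc (d : ℕ) :
    FreeNonUnitalNonAssocAlgebra F ℕ →ₙₐ[F] FreeNonUnitalNonAssocAlgebra F ℕ :=
  FreeNonUnitalNonAssocAlgebra.lift F (fun i => if i < d then X F i else 0)

theorem exists_trunc (f : FreeNonUnitalNonAssocAlgebra F ℕ) :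
    ∃ d, ∀ e, d ≤ e → trunc F e f = f := by
  let T : NonUnitalSubalgebra F (FreeNonUnitalNonAssocAlgebra F ℕ) :=
    { carrier := {f | ∃ d, ∀ e, d ≤ e → trunc F e f = f}
      add_mem' := fun {a b} ⟨d, hd⟩ ⟨d', hd'⟩ => ⟨max d d', fun e he => by
        rw [map_add, hd e (le_trans (le_max_left _ _) he), hd' e (le_trans (le_max_right _ _) he)]⟩
      zero_mem' := ⟨0, fun e _ => map_zero _⟩
      mul_mem' := fun {a b} ⟨d, hd⟩ ⟨d', hd'⟩ => ⟨max d d', fun e he => by
        rw [map_mul, hd e (le_trans (le_max_left _ _) he), hd' e (le_trans (le_max_right _ _) he)]⟩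
      smul_mem' := fun c a ⟨d, hd⟩ => ⟨d, fun e he => by rw [map_smul, hd e he]⟩ }
  have hX : ∀ i, X F i ∈ T := fun i => ⟨i + 1, fun e he => by
    have : i < e := he
    simp [trunc, this]⟩
  let g : FreeNonUnitalNonAssocAlgebra F ℕ →ₙₐ[F] T :=
    FreeNonUnitalNonAssocAlgebra.lift F (fun i => ⟨X F i, hX i⟩)
  have hg : (NonUnitalSubalgebraClass.subtype T).comp g = NonUnitalAlgHom.id F _ := by
    apply FreeNonUnitalNonAssocAlgebra.hom_ext
    intro i
    simp [g]
  have : f = (g f : FreeNonUnitalNonAssocAlgebra F ℕ) := (DFunLike.congr_fun hg f).symm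
  rw [this]
  exact (g f).2

theorem exists_trunc_finite {S : Set (FreeNonUnitalNonAssocAlgebra F ℕ)} (hS : S.Finite) :
    ∃ d, ∀ f ∈ S, trunc F d f = f := by
  choose D hD using (exists_trunc (F := F))
  obtain ⟨d, hd⟩ := (hS.image D).bddAbove
  exact ⟨d, fun f hf => hD f d (hd ⟨f, hf, rfl⟩)⟩

variable (F) in
/-- the top degree coefficient on the exterior algebra of `F ^ n` -/
noncomputable def topc (n : ℕ) : ExteriorAlgebra F (Fin n → F) →ₗ[F] F :=
  ExteriorAlgebra.liftAlternating
    (Function.update (0 : ∀ i : ℕ, (Fin n → F) [⋀^Fin i]→ₗ[F] F) n (Pi.basisFun F (Fin n)).det)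

theorem pl_range {U : Type u} [AddCommGroup U] [Module F U] (v : ℕ → U) (m : ℕ) :
    (pl ((List.range m).map v) : ExteriorAlgebra F U) =
      ExteriorAlgebra.ιMulti F m (fun i : Fin m => v i) := by
  rw [ExteriorAlgebra.ιMulti_apply, pl]
  congr 1
  apply List.ext_getElem <;> simp

theorem topc_self (n : ℕ) (v : ℕ → Fin n → F) :
    topc F n (pl ((List.range n).map v)) = (Pi.basisFun F (Fin n)).det (fun i : Fin n => v i) := by
  rw [pl_range, topc, ExteriorAlgebra.liftAlternating_apply_ιMulti, Function.update_self]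

theorem topc_sub (n : ℕ) (T : Submodule F (Fin n → F)) (hT : Module.finrank F T < n)
    (v : ℕ → Fin n → F) (hv : ∀ i, v i ∈ T) (m : ℕ) :
    topc F n (pl ((List.range m).map v)) = 0 := by
  by_cases h : m = n
  · subst h
    rw [topc_self]
    apply AlternatingMap.map_linearDependent
    intro hli
    have h2 : LinearIndependent F (fun i : Fin m => (⟨v i, hv i⟩ : T)) :=
      LinearIndependent.of_comp T.subtype hli
    have := h2.fintype_card_le_finrank
    rw [Fintype.card_fin] at this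
    omega
  · rw [pl_range, topc, ExteriorAlgebra.liftAlternating_apply_ιMulti, Function.update_of_ne h]
    rfl

variable (F) in
/-- the algebra `B n` -/
noncomputable def Bn (n : ℕ) : Alg F where
  carrier := Bm (topc F n)

/-- the subalgebra of elements whose first component lies in `T` -/
def subB {n : ℕ} (T : Submodule F (Fin n → F)) : NonUnitalSubalgebra F (Bm (topc F n)) where
  carrier := {x | x.u ∈ T}
  add_mem' := fun {a b} ha hb => T.add_mem ha hb
  zero_mem' := T.zero_mem
  mul_mem' := fun {a b} _ _ => T.zero_mem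
  smul_mem' := fun c a ha => T.smul_mem c ha

/-- the subalgebra as an algebra -/
noncomputable def Cn {n : ℕ} (T : Submodule F (Fin n → F)) : Alg F where
  carrier := subB T

theorem Cn_mem {n : ℕ} (T : Submodule F (Fin n → F)) (hT : Module.finrank F T < n) :
    Cn T ∈ Var (S1 F) := by
  rw [mem_W0_iff]
  have hi : Function.Injective (NonUnitalSubalgebraClass.subtype (subB T)) := Subtype.val_injective
  have key : ∀ (ψ : ℕ → subB T) (k : ℕ), mw ψ k = 0 := by
    intro ψ k
    apply hi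
    have h0 := topc_sub n T hT
      (fun i => (NonUnitalSubalgebraClass.subtype (subB T) (ψ i)).u) (fun i => (ψ i).2) (k + 5)
    rw [map_mw, map_zero, mw_eq, h0]
    simp only [mul_zero, ite_self]
    rfl
  exact ⟨good_of_inj (NonUnitalSubalgebraClass.subtype (subB T)) hi Bm.good, key⟩

theorem Bn_not_mem [CharZero F] (t : ℕ) : Bn F (4 * t + 3 + 5) ∉ Var (S1 F) := by
  rw [mem_W0_iff]
  rintro ⟨-, h⟩
  let ψ : ℕ → Bm (topc F (4 * t + 3 + 5)) := fun i =>
    Bm.mk (if h : i < 4 * t + 3 + 5 then Pi.basisFun F (Fin (4 * t + 3 + 5)) ⟨i, h⟩ else 0) 0 0 0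
  have h1 : mw ψ (4 * t + 3) = 0 := h ψ (4 * t + 3)
  have hodd : ¬ Even (4 * t + 3) := by
    rw [Nat.not_even_iff_odd]; exact ⟨2 * t + 1, by ring⟩
  have hev : Even ((4 * t + 3 + 5).choose 2) := by
    rw [Nat.choose_two_right]
    refine ⟨(t + 2) * (4 * t + 7), ?_⟩
    have : (4 * t + 3 + 5) * (4 * t + 3 + 5 - 1) =
        2 * ((t + 2) * (4 * t + 7) + (t + 2) * (4 * t + 7)) := by
      rw [show 4 * t + 3 + 5 - 1 = 4 * t + 7 by omega]; ring
    rw [this, Nat.mul_div_cancel_left _ (by norm_num)]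
  rw [mw_eq, if_neg hodd, topc_self, hev.neg_one_pow] at h1
  have h2 := congrArg Bm.s h1
  have h3 : (fun i : Fin (4 * t + 3 + 5) => (ψ i).u) = Pi.basisFun F (Fin (4 * t + 3 + 5)) := by
    funext i
    simp only [ψ, Bm.mk_u, i.2, dif_pos]
  rw [Bm.mk_s, h3, Module.Basis.det_self, Bm.zero_s] at h2
  norm_num at h2

theorem W0_not_finitelyBased [CharZero F] : ¬ FinitelyBased (Var (S1 F)) := by
  rintro ⟨S, hS, hW⟩
  obtain ⟨d, hd⟩ := exists_trunc_finite hS
  apply Bn_not_mem (F := F) d
  rw [hW]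
  intro f hf φ
  let φ₀ : ℕ → Bm (topc F (4 * d + 3 + 5)) := φ
  let T : Submodule F (Fin (4 * d + 3 + 5) → F) :=
    Submodule.span F (Set.range (fun i : Fin d => (φ₀ i).u))
  have hT : Module.finrank F T < 4 * d + 3 + 5 := by
    have := finrank_range_le_card (R := F) (fun i : Fin d => (φ₀ i).u)
    rw [Fintype.card_fin] at this
    have h2 : Module.finrank F T ≤ d := this
    omega
  have hC := Cn_mem T hT
  rw [hW] at hC
  let φ' : ℕ → subB T := fun i =>
    if h : i < d then ⟨φ₀ i, Submodule.subset_span ⟨⟨i, h⟩, rfl⟩⟩ else 0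
  have h1 : FreeNonUnitalNonAssocAlgebra.lift F φ' f = 0 := hC f hf φ'
  have h2 : (NonUnitalSubalgebraClass.subtype (subB T)).comp
      (FreeNonUnitalNonAssocAlgebra.lift F φ') =
      (FreeNonUnitalNonAssocAlgebra.lift F φ₀).comp (trunc F d) := by
    apply FreeNonUnitalNonAssocAlgebra.hom_ext
    intro i
    by_cases h : i < d <;> simp [φ', trunc, h]
  have h3 := DFunLike.congr_fun h2 f
  simp only [NonUnitalAlgHom.comp_apply, h1, hd f hf, map_zero] at h3
  exact h3.symm

theorem V0_not_spechtian [CharZero F] : ¬ Spechtian (Var (S0 F)) := fun h =>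
  W0_not_finitelyBased (h (Var (S1 F)) ⟨_, rfl⟩ (fun _ hA f hf => hA f (Or.inl hf)))

end Pool.Agent.P.MP_b8847a_al
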