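import Pool.Agent.P.MP_b8847a_al.General

/-! The algebras `Bm lam` built from an exterior algebra. -/

namespace Pool.Agent.P.MP_b8847a_al

universe u

open ExteriorAlgebra CliffordAlgebra

variable {F : Type u} [Field F] {U : Type u} [AddCommGroup U] [Module F U]

theorem iota_mul (u : U) (e : ExteriorAlgebra F U) :
    ExteriorAlgebra.ι F u * e = involute e * ExteriorAlgebra.ι F u := by
  induction e using ExteriorAlgebra.induction with
  | algebraMap r => rw [AlgHom.commutes, Algebra.commutes]
  | ι x =>
    have h := ι_add_mul_swap (R := F) u x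
    have h2 : involute (ExteriorAlgebra.ι F x) = -ExteriorAlgebra.ι F x := involute_ι x
    rw [h2, neg_mul]
    exact eq_neg_of_add_eq_zero_left h
  | mul a b ha hb => rw [← mul_assoc, ha, mul_assoc, hb, map_mul, mul_assoc]
  | add a b ha hb => rw [mul_add, ha, hb, map_add, add_mul]

theorem iota_swap (u v : U) : ExteriorAlgebra.ι F u * ExteriorAlgebra.ι F v =
    -(ExteriorAlgebra.ι F v * ExteriorAlgebra.ι F u) :=
  eq_neg_of_add_eq_zero_left (ι_add_mul_swap u v)

theorem iota_sandwich (u v : U) (e : ExteriorAlgebra F U) :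
    ExteriorAlgebra.ι F u * e * ExteriorAlgebra.ι F v +
      ExteriorAlgebra.ι F v * e * ExteriorAlgebra.ι F u = 0 := by
  rw [iota_mul u e, iota_mul v e, mul_assoc, mul_assoc, ← mul_add, ι_add_mul_swap, mul_zero]

theorem iota_sandwich_self (u : U) (e : ExteriorAlgebra F U) :
    ExteriorAlgebra.ι F u * e * ExteriorAlgebra.ι F u = 0 := by
  rw [iota_mul u e, mul_assoc, ι_sq_zero, mul_zero]

theorem iota_two_central (u v : U) (e : ExteriorAlgebra F U) :
    ExteriorAlgebra.ι F u * ExteriorAlgebra.ι F v * e =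
      e * (ExteriorAlgebra.ι F u * ExteriorAlgebra.ι F v) := by
  rw [mul_assoc, iota_mul v e, ← mul_assoc, iota_mul u, involute_involute, mul_assoc]

theorem rev_iota (u : U) : reverse (ExteriorAlgebra.ι F u) = ExteriorAlgebra.ι F u := reverse_ι u

/-- the symmetric form `lam (rev q * q' + rev q' * q)` -/
noncomputable def beta (lam : ExteriorAlgebra F U →ₗ[F] F) (q q' : ExteriorAlgebra F U) : F :=
  lam (reverse q * q' + reverse q' * q)

variable {lam : ExteriorAlgebra F U →ₗ[F] F}

theorem beta_comm (q q' : ExteriorAlgebra F U) : beta lam q q' = beta lam q' q := by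
  rw [beta, beta, add_comm]

theorem beta_add_left (q r q' : ExteriorAlgebra F U) :
    beta lam (q + r) q' = beta lam q q' + beta lam r q' := by
  simp only [beta, map_add, add_mul, mul_add]; abel

theorem beta_add_right (q r q' : ExteriorAlgebra F U) :
    beta lam q' (q + r) = beta lam q' q + beta lam q' r := by
  rw [beta_comm, beta_add_left, beta_comm q, beta_comm r]

theorem beta_smul_left (c : F) (q q' : ExteriorAlgebra F U) :
    beta lam (c • q) q' = c * beta lam q q' := by
  simp only [beta, map_smul, smul_mul_assoc, mul_smul_comm, map_add, smul_eq_mul, mul_add]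

theorem beta_smul_right (c : F) (q q' : ExteriorAlgebra F U) :
    beta lam q' (c • q) = c * beta lam q' q := by
  rw [beta_comm, beta_smul_left, beta_comm]

@[simp] theorem beta_zero_left (q : ExteriorAlgebra F U) : beta lam 0 q = 0 := by simp [beta]

@[simp] theorem beta_zero_right (q : ExteriorAlgebra F U) : beta lam q 0 = 0 := by simp [beta]

theorem beta_j1 (q : ExteriorAlgebra F U) (u v : U) :
    beta lam (q * ExteriorAlgebra.ι F u * ExteriorAlgebra.ι F v) q = 0 := by
  rw [beta, reverse.map_mul, reverse.map_mul, rev_iota, rev_iota, ← mul_assoc (ExteriorAlgebra.ι F v),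
    mul_assoc _ _ q, iota_two_central, mul_assoc q, ← mul_assoc (reverse q) q, ← mul_add,
    ι_add_mul_swap, mul_zero, map_zero]

theorem beta_j2 (p : ExteriorAlgebra F U) (u v : U) :
    beta lam (p * ExteriorAlgebra.ι F u) (p * ExteriorAlgebra.ι F v) = 0 := by
  have := iota_sandwich u v (reverse p * p)
  rw [beta, reverse.map_mul, reverse.map_mul, rev_iota, rev_iota]
  simp only [mul_assoc] at this ⊢
  rw [this, map_zero]

theorem beta_j3 (p p' : ExteriorAlgebra F U) (u : U) :
    beta lam (p * ExteriorAlgebra.ι F u) (p' * ExteriorAlgebra.ι F u) = 0 := by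
  have h1 := iota_sandwich_self u (reverse p * p')
  have h2 := iota_sandwich_self u (reverse p' * p)
  rw [beta, reverse.map_mul, reverse.map_mul, rev_iota]
  simp only [mul_assoc] at h1 h2 ⊢
  rw [h1, h2, add_zero, map_zero]

/-- The underlying space `U + E + E + F`. -/
def Bm (_lam : ExteriorAlgebra F U →ₗ[F] F) : Type u :=
  U × ExteriorAlgebra F U × ExteriorAlgebra F U × F

namespace Bm

noncomputable instance : AddCommGroup (Bm lam) :=
  inferInstanceAs (AddCommGroup (U × ExteriorAlgebra F U × ExteriorAlgebra F U × F))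

noncomputable instance : Module F (Bm lam) :=
  inferInstanceAs (Module F (U × ExteriorAlgebra F U × ExteriorAlgebra F U × F))

/-- first component -/
def u (x : Bm lam) : U := x.1
/-- second component -/
def p (x : Bm lam) : ExteriorAlgebra F U := x.2.1
/-- third component -/
def q (x : Bm lam) : ExteriorAlgebra F U := x.2.2.1
/-- fourth component -/
def s (x : Bm lam) : F := x.2.2.2

/-- constructor -/
def mk (a : U) (b c : ExteriorAlgebra F U) (d : F) : Bm lam := (a, b, c, d)

theorem ext {x y : Bm lam} (h1 : x.u = y.u) (h2 : x.p = y.p) (h3 : x.q = y.q) (h4 : x.s = y.s) :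
    x = y := Prod.ext h1 (Prod.ext h2 (Prod.ext h3 h4))

noncomputable instance : Mul (Bm lam) :=
  ⟨fun x y => mk 0
    (ExteriorAlgebra.ι F x.u * ExteriorAlgebra.ι F y.u + x.q * ExteriorAlgebra.ι F y.u +
      y.q * ExteriorAlgebra.ι F x.u)
    (x.p * ExteriorAlgebra.ι F y.u + y.p * ExteriorAlgebra.ι F x.u) (beta lam x.q y.q)⟩

@[simp] theorem mk_u (a : U) (b c : ExteriorAlgebra F U) (d : F) : (mk a b c d : Bm lam).u = a := rfl
@[simp] theorem mk_p (a : U) (b c : ExteriorAlgebra F U) (d : F) : (mk a b c d : Bm lam).p = b := rfl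
@[simp] theorem mk_q (a : U) (b c : ExteriorAlgebra F U) (d : F) : (mk a b c d : Bm lam).q = c := rfl
@[simp] theorem mk_s (a : U) (b c : ExteriorAlgebra F U) (d : F) : (mk a b c d : Bm lam).s = d := rfl
@[simp] theorem mul_u (x y : Bm lam) : (x * y).u = 0 := rfl
@[simp] theorem mul_p (x y : Bm lam) : (x * y).p =
    ExteriorAlgebra.ι F x.u * ExteriorAlgebra.ι F y.u + x.q * ExteriorAlgebra.ι F y.u +
      y.q * ExteriorAlgebra.ι F x.u := rfl
@[simp] theorem mul_q (x y : Bm lam) : (x * y).q =
    x.p * ExteriorAlgebra.ι F y.u + y.p * ExteriorAlgebra.ι F x.u := rfl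
@[simp] theorem mul_s (x y : Bm lam) : (x * y).s = beta lam x.q y.q := rfl
@[simp] theorem add_u (x y : Bm lam) : (x + y).u = x.u + y.u := rfl
@[simp] theorem add_p (x y : Bm lam) : (x + y).p = x.p + y.p := rfl
@[simp] theorem add_q (x y : Bm lam) : (x + y).q = x.q + y.q := rfl
@[simp] theorem add_s (x y : Bm lam) : (x + y).s = x.s + y.s := rfl
@[simp] theorem sub_u (x y : Bm lam) : (x - y).u = x.u - y.u := rfl
@[simp] theorem sub_p (x y : Bm lam) : (x - y).p = x.p - y.p := rfl
@[simp] theorem sub_q (x y : Bm lam) : (x - y).q = x.q - y.q := rfl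
@[simp] theorem sub_s (x y : Bm lam) : (x - y).s = x.s - y.s := rfl
@[simp] theorem zero_u : (0 : Bm lam).u = 0 := rfl
@[simp] theorem zero_p : (0 : Bm lam).p = 0 := rfl
@[simp] theorem zero_q : (0 : Bm lam).q = 0 := rfl
@[simp] theorem zero_s : (0 : Bm lam).s = 0 := rfl
@[simp] theorem smul_u (c : F) (x : Bm lam) : (c • x).u = c • x.u := rfl
@[simp] theorem smul_p (c : F) (x : Bm lam) : (c • x).p = c • x.p := rfl
@[simp] theorem smul_q (c : F) (x : Bm lam) : (c • x).q = c • x.q := rfl
@[simp] theorem smul_s (c : F) (x : Bm lam) : (c • x).s = c * x.s := rfl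

noncomputable instance : NonUnitalNonAssocRing (Bm lam) where
  left_distrib x y z := by
    refine ext (by simp) ?_ ?_ ?_
    · simp only [mul_p, add_u, add_q, add_p, map_add, mul_add, add_mul]; abel
    · simp only [mul_q, add_u, add_q, add_p, map_add, mul_add, add_mul]; abel
    · simp only [mul_s, add_q, add_s, beta_add_right]
  right_distrib x y z := by
    refine ext (by simp) ?_ ?_ ?_
    · simp only [mul_p, add_u, add_q, add_p, map_add, mul_add, add_mul]; abel
    · simp only [mul_q, add_u, add_q, add_p, map_add, mul_add, add_mul]; abel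
    · simp only [mul_s, add_q, add_s, beta_add_left]
  zero_mul x := ext (by simp) (by simp) (by simp) (by simp)
  mul_zero x := ext (by simp) (by simp) (by simp) (by simp)

instance : IsScalarTower F (Bm lam) (Bm lam) where
  smul_assoc c x y := by
    change (c • x) * y = c • (x * y)
    exact ext (by simp) (by simp) (by simp) (by simp [beta_smul_left])

instance : SMulCommClass F (Bm lam) (Bm lam) where
  smul_comm c x y := by
    change c • (x * y) = x * (c • y)
    exact ext (by simp) (by simp) (by simp) (by simp [beta_smul_right])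

theorem gen_u (ψ : ℕ → Bm lam) : (gen ψ).u = 0 := by simp [gen, com, asc]

theorem good : Good (Bm lam) := by
  refine ⟨fun x y => ?_, fun x y => ?_, fun x y z => ?_, fun ψ₁ ψ₂ ψ₃ => ?_⟩
  · rw [asc, sub_eq_zero]
    refine ext (by simp) ?_ ?_ ?_
    · simp [add_comm]
    · have h1 := iota_sandwich_self (F := F) x.u (ExteriorAlgebra.ι F y.u)
      simp only [mul_q, mul_p, mul_u, map_zero, mul_zero, add_zero, zero_add, add_mul, h1]
      rw [mul_assoc (ExteriorAlgebra.ι F y.u), ι_sq_zero, mul_zero, zero_add, add_comm]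
    · simp only [mul_s, mul_q]
      rw [beta_comm, add_comm]
  · rw [asc, sub_eq_zero]
    have h1 := iota_sandwich_self (F := F) x.u (ExteriorAlgebra.ι F y.u)
    rw [mul_assoc] at h1
    refine ext (by simp) ?_ ?_ ?_
    · simp [add_mul, mul_assoc, h1]
    · simp [add_mul, mul_assoc, h1]
    · simp [add_mul, beta_add_left, beta_add_right, beta_j1, beta_j2, beta_j3]
  · refine ext (by simp [com]) ?_ ?_ ?_
    · simp [com, add_comm]
    · simp [com]
    · simp [com, add_comm]
  · refine ext (by simp) ?_ ?_ ?_ <;> simp [gen_u]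

end Bm

/-- product of a list of vectors in the exterior algebra -/
noncomputable def pl (l : List U) : ExteriorAlgebra F U := (l.map (ExteriorAlgebra.ι F)).prod

@[simp] theorem pl_nil : (pl [] : ExteriorAlgebra F U) = 1 := by simp [pl]

@[simp] theorem pl_cons (a : U) (l : List U) :
    (pl (a :: l) : ExteriorAlgebra F U) = ExteriorAlgebra.ι F a * pl l := by simp [pl]

theorem pl_append (l l' : List U) : (pl (l ++ l') : ExteriorAlgebra F U) = pl l * pl l' := by
  simp [pl]

theorem involute_pl (l : List U) :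
    involute (pl l : ExteriorAlgebra F U) = (-1 : F) ^ l.length • pl l :=
  involute_prod_map_ι l

theorem reverse_pl (l : List U) :
    reverse (pl l : ExteriorAlgebra F U) = (-1 : F) ^ (l.length.choose 2) • pl l := by
  induction l with
  | nil => simp
  | cons a l ih =>
    rw [pl_cons, reverse.map_mul, rev_iota, ih, iota_mul, involute_pl, List.length_cons,
      Nat.choose_succ_succ' , Nat.choose_one_right, smul_mul_assoc, smul_mul_assoc, smul_smul,
      pow_add, mul_assoc, mul_comm ((-1 : F) ^ (l.length.choose 2)), ← mul_assoc, ← pow_add,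
      ← two_mul, pow_mul]
    simp

/-- the list `[v 3, ..., v (k + 4)]` -/
def tl (v : ℕ → U) : ℕ → List U
  | 0 => [v 3, v 4]
  | k + 1 => tl v k ++ [v (k + 5)]

theorem tl_length (v : ℕ → U) (k : ℕ) : (tl v k).length = k + 2 := by
  induction k with
  | zero => rfl
  | succ k ih => simp [tl, ih]

theorem tl_full (v : ℕ → U) (k : ℕ) :
    v 0 :: v 1 :: v 2 :: tl v k = (List.range (k + 5)).map v := by
  induction k with
  | zero => simp [tl, List.range_succ]
  | succ k ih =>
    rw [show k + 1 + 5 = (k + 5) + 1 by ring, List.range_succ, List.map_append, ← ih]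
    simp [tl]

theorem qw_parts (ψ : ℕ → Bm lam) (k : ℕ) :
    (qw ψ k).u = 0 ∧
    (qw ψ k).p = (if Even k then (2 : F) • pl (tl (fun i => (ψ i).u) k) else 0) ∧
    (qw ψ k).q = (if Even k then 0 else (2 : F) • pl (tl (fun i => (ψ i).u) k)) := by
  induction k with
  | zero =>
    refine ⟨by simp [qw, com], ?_, by simp [qw, com, add_comm]⟩
    simp only [qw, com, Bm.sub_p, Bm.mul_p, Even.zero, if_true, tl, pl_cons, pl_nil, mul_one,
      two_smul]
    rw [iota_swap (ψ 4).u (ψ 3).u]; abel
  | succ k ih =>
    obtain ⟨h1, h2, h3⟩ := ih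
    refine ⟨by simp [qw], ?_, ?_⟩
    · simp only [qw, Bm.mul_p, h1, h3, map_zero, zero_mul, mul_zero, zero_add, add_zero,
        Nat.even_add_one, tl, pl_append, pl_cons, pl_nil, mul_one]
      by_cases hk : Even k <;> simp [hk]
    · simp only [qw, Bm.mul_q, h1, h2, map_zero, zero_mul, mul_zero, zero_add, add_zero,
        Nat.even_add_one, tl, pl_append, pl_cons, pl_nil, mul_one]
      by_cases hk : Even k <;> simp [hk]

theorem head_parts (ψ : ℕ → Bm lam) :
    (com (ψ 0) (ψ 1) * ψ 2).q = (2 : F) • pl [(ψ 0).u, (ψ 1).u, (ψ 2).u] := by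
  simp only [com, Bm.mul_q, Bm.sub_p, Bm.mul_p, Bm.sub_u, Bm.mul_u, sub_zero, map_zero, mul_zero,
    add_zero, pl_cons, pl_nil, mul_one, two_smul]
  rw [iota_swap (ψ 1).u (ψ 0).u]
  noncomm_ring

theorem mw_eq (ψ : ℕ → Bm lam) (k : ℕ) :
    mw ψ k = Bm.mk 0 0 0 (if Even k then 0 else
      -(4 * (1 + (-1) ^ ((k + 5).choose 2))) *
        lam (pl ((List.range (k + 5)).map fun i => (ψ i).u))) := by
  obtain ⟨h1, h2, h3⟩ := qw_parts ψ k
  refine Bm.ext (by simp [mw]) (by simp [mw, h1]) (by simp [mw, h1]) ?_
  rw [mw, Bm.mul_s, head_parts, h3, Bm.mk_s]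
  by_cases hk : Even k
  · simp [hk]
  · simp only [hk, if_false]
    rw [beta_smul_left, beta_smul_right, beta]
    set a : ExteriorAlgebra F U := pl [(ψ 0).u, (ψ 1).u, (ψ 2).u] with ha
    set b : ExteriorAlgebra F U := pl (tl (fun i => (ψ i).u) k) with hb
    have hab : a * b = pl ((List.range (k + 5)).map fun i => (ψ i).u) := by
      rw [ha, hb, ← pl_append, ← tl_full]; rfl
    have hra : reverse a = -a := by
      rw [ha, reverse_pl]
      have : (-1 : F) ^ ([(ψ 0).u, (ψ 1).u, (ψ 2).u].length.choose 2) = -1 := by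
        change (-1 : F) ^ 3 = -1
        norm_num
      rw [this, neg_one_smul]
    have h4 : reverse b * a = -reverse (a * b) := by
      rw [reverse.map_mul, hra, mul_neg, neg_neg]
    rw [h4, hra, neg_mul, hab, reverse_pl, List.length_map, List.length_range]
    simp only [map_add, map_neg, map_smul, smul_eq_mul]
    ring

end Pool.Agent.P.MP_b8847a_al
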